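import Mathlib

/-!
# Distributed spectral pairs: a counterexample in `{0, ..., 23}`

For `M = 24`, `A = {0, 4, 16, 20}`, `B = {0, 3, 18, 21}` the pair `(A, B)` is a distributed
spectral pair, but it is a spectral pair neither in `Z_24` nor in `Z_576`.
-/

namespace Pool.Agent.Results.MP_2c87a3_an.MixedPair

open Complex

/-- `nuhat E ξ = (1/|E|) * sum over a in E of exp(-2 pi i ξ a)`. -/
noncomputable def nuhat (E : Finset ℤ) (ξ : ℝ) : ℂ :=
  (1 / (E.card : ℂ)) * ∑ a ∈ E, Complex.exp (-(2 * Real.pi * Complex.I * ξ * a))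

/-- `(A, B)` is a spectral pair in `Z_N`: `nuhat A ((b - b') / N) = 0` for distinct `b, b'` in
`B`. -/
def SpectralPair (N : ℕ) (A B : Finset ℤ) : Prop :=
  ∀ b ∈ B, ∀ b' ∈ B, b ≠ b' → nuhat A (((b : ℝ) - (b' : ℝ)) / (N : ℝ)) = 0

/-- `(A, B)` is a distributed spectral pair (for the modulus `M`). -/
def DistributedSpectralPair (M : ℕ) (A B : Finset ℤ) : Prop :=
  ∀ b₁ ∈ B, ∀ b₁' ∈ B, b₁ ≠ b₁' →
    nuhat A (((b₁ : ℝ) - (b₁' : ℝ)) / (M : ℝ)) = 0 ∨
    ∀ b₂ ∈ B, ∀ b₂' ∈ B,
      nuhat A (((b₁ : ℝ) - (b₁' : ℝ)) / (M : ℝ) ^ 2 + ((b₂ : ℝ) - (b₂' : ℝ)) / (M : ℝ)) = 0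

/-- The character `x ↦ exp(-2 pi i x)`. -/
noncomputable def e (x : ℝ) : ℂ := Complex.exp (-(2 * Real.pi * Complex.I * x))

lemma e_eq (x : ℝ) : e x = Complex.exp (((-(2 * Real.pi * x) : ℝ) : ℂ) * Complex.I) := by
  unfold e
  congr 1
  push_cast
  ring

lemma e_add (x y : ℝ) : e (x + y) = e x * e y := by
  unfold e
  rw [← Complex.exp_add]
  congr 1
  push_cast
  ring

lemma e_re (x : ℝ) : (e x).re = Real.cos (2 * Real.pi * x) := by
  rw [e_eq, Complex.exp_ofReal_mul_I_re, Real.cos_neg]

lemma e_int (n : ℤ) : e (n : ℝ) = 1 := by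
  unfold e
  rw [Complex.exp_eq_one_iff]
  refine ⟨-n, ?_⟩
  push_cast
  ring

lemma e_half : e (1 / 2) = -1 := by
  unfold e
  have : (-(2 * (Real.pi : ℂ) * Complex.I * ((1 / 2 : ℝ) : ℂ))) = -(Real.pi * Complex.I) := by
    push_cast
    ring
  rw [this, Complex.exp_neg, Complex.exp_pi_mul_I]
  norm_num

lemma e_odd (n : ℤ) : 1 + e ((n : ℝ) + 1 / 2) = 0 := by
  rw [e_add, e_int, e_half]
  norm_num

lemma e_nz (x : ℝ) (h0 : 0 ≤ x) (h1 : x < 1 / 4) : 1 + e x ≠ 0 := by
  intro h
  have h2 : (1 + e x).re = 0 := by rw [h]; simp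
  rw [Complex.add_re, e_re, Complex.one_re] at h2
  have h3 : 0 < Real.cos (2 * Real.pi * x) := by
    apply Real.cos_pos_of_mem_Ioo
    constructor
    · have := Real.pi_pos
      have : 0 ≤ 2 * Real.pi * x := by positivity
      linarith [Real.pi_pos]
    · have := Real.pi_pos
      nlinarith
  linarith

/-- The set `A`. -/
def A : Finset ℤ := {0, 4, 16, 20}

/-- The set `B`. -/
def B : Finset ℤ := {0, 3, 18, 21}

lemma nuhat_A (ξ : ℝ) : nuhat A ξ = (1 / 4) * ((1 + e (4 * ξ)) * (1 + e (16 * ξ))) := by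
  have hc : A.card = 4 := by decide
  have h20 : e (20 * ξ) = e (4 * ξ) * e (16 * ξ) := by
    rw [← e_add]
    congr 1
    ring
  unfold nuhat
  rw [hc]
  have hs : ∑ a ∈ A, Complex.exp (-(2 * Real.pi * Complex.I * ξ * a))
      = e (0 * ξ) + e (4 * ξ) + e (16 * ξ) + e (20 * ξ) := by
    unfold A
    rw [Finset.sum_insert (by decide), Finset.sum_insert (by decide),
      Finset.sum_insert (by decide), Finset.sum_singleton]
    unfold e
    push_cast
    rw [← add_assoc, ← add_assoc]
    congr 1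
    · congr 1
      · congr 1
        · congr 1
          ring
        · congr 1
          ring
      · congr 1
        ring
    · congr 1
      ring
  have h0 : e (0 * ξ) = 1 := by
    have := e_int 0
    simpa using this
  rw [hs, h0, h20]
  push_cast
  ring

lemma van1 (ξ : ℝ) (n : ℤ) (h : 4 * ξ = n + 1 / 2) : nuhat A ξ = 0 := by
  rw [nuhat_A, h, e_odd]
  simp

lemma van2 (ξ : ℝ) (n : ℤ) (h : 16 * ξ = n + 1 / 2) : nuhat A ξ = 0 := by
  rw [nuhat_A, h, e_odd]
  simp

lemma distr : DistributedSpectralPair 24 A B := by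
  have hB : ∀ b ∈ B, b = 0 ∨ b = 3 ∨ b = 18 ∨ b = 21 := by
    intro b hb
    simpa [B] using hb
  intro b hb b' hb' hne
  rcases hB b hb with rfl | rfl | rfl | rfl <;> rcases hB b' hb' with rfl | rfl | rfl | rfl
  · exact absurd rfl hne
  · left; exact van1 _ (-1) (by norm_num)
  · right
    intro c hc c' hc'
    rcases hB c hc with rfl | rfl | rfl | rfl <;> rcases hB c' hc' with rfl | rfl | rfl | rfl
    · exact van2 _ (-1) (by norm_num)
    · exact van2 _ (-3) (by norm_num)
    · exact van2 _ (-13) (by norm_num)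
    · exact van2 _ (-15) (by norm_num)
    · exact van2 _ (1) (by norm_num)
    · exact van2 _ (-1) (by norm_num)
    · exact van2 _ (-11) (by norm_num)
    · exact van2 _ (-13) (by norm_num)
    · exact van2 _ (11) (by norm_num)
    · exact van2 _ (9) (by norm_num)
    · exact van2 _ (-1) (by norm_num)
    · exact van2 _ (-3) (by norm_num)
    · exact van2 _ (13) (by norm_num)
    · exact van2 _ (11) (by norm_num)
    · exact van2 _ (1) (by norm_num)
    · exact van2 _ (-1) (by norm_num)
  · left; exact van1 _ (-4) (by norm_num)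
  · left; exact van1 _ 0 (by norm_num)
  · exact absurd rfl hne
  · left; exact van1 _ (-3) (by norm_num)
  · right
    intro c hc c' hc'
    rcases hB c hc with rfl | rfl | rfl | rfl <;> rcases hB c' hc' with rfl | rfl | rfl | rfl
    · exact van2 _ (-1) (by norm_num)
    · exact van2 _ (-3) (by norm_num)
    · exact van2 _ (-13) (by norm_num)
    · exact van2 _ (-15) (by norm_num)
    · exact van2 _ (1) (by norm_num)
    · exact van2 _ (-1) (by norm_num)
    · exact van2 _ (-11) (by norm_num)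
    · exact van2 _ (-13) (by norm_num)
    · exact van2 _ (11) (by norm_num)
    · exact van2 _ (9) (by norm_num)
    · exact van2 _ (-1) (by norm_num)
    · exact van2 _ (-3) (by norm_num)
    · exact van2 _ (13) (by norm_num)
    · exact van2 _ (11) (by norm_num)
    · exact van2 _ (1) (by norm_num)
    · exact van2 _ (-1) (by norm_num)
  · right
    intro c hc c' hc'
    rcases hB c hc with rfl | rfl | rfl | rfl <;> rcases hB c' hc' with rfl | rfl | rfl | rfl
    · exact van2 _ (0) (by norm_num)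
    · exact van2 _ (-2) (by norm_num)
    · exact van2 _ (-12) (by norm_num)
    · exact van2 _ (-14) (by norm_num)
    · exact van2 _ (2) (by norm_num)
    · exact van2 _ (0) (by norm_num)
    · exact van2 _ (-10) (by norm_num)
    · exact van2 _ (-12) (by norm_num)
    · exact van2 _ (12) (by norm_num)
    · exact van2 _ (10) (by norm_num)
    · exact van2 _ (0) (by norm_num)
    · exact van2 _ (-2) (by norm_num)
    · exact van2 _ (14) (by norm_num)
    · exact van2 _ (12) (by norm_num)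
    · exact van2 _ (2) (by norm_num)
    · exact van2 _ (0) (by norm_num)
  · left; exact van1 _ 2 (by norm_num)
  · exact absurd rfl hne
  · left; exact van1 _ (-1) (by norm_num)
  · left; exact van1 _ 3 (by norm_num)
  · right
    intro c hc c' hc'
    rcases hB c hc with rfl | rfl | rfl | rfl <;> rcases hB c' hc' with rfl | rfl | rfl | rfl
    · exact van2 _ (0) (by norm_num)
    · exact van2 _ (-2) (by norm_num)
    · exact van2 _ (-12) (by norm_num)
    · exact van2 _ (-14) (by norm_num)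
    · exact van2 _ (2) (by norm_num)
    · exact van2 _ (0) (by norm_num)
    · exact van2 _ (-10) (by norm_num)
    · exact van2 _ (-12) (by norm_num)
    · exact van2 _ (12) (by norm_num)
    · exact van2 _ (10) (by norm_num)
    · exact van2 _ (0) (by norm_num)
    · exact van2 _ (-2) (by norm_num)
    · exact van2 _ (14) (by norm_num)
    · exact van2 _ (12) (by norm_num)
    · exact van2 _ (2) (by norm_num)
    · exact van2 _ (0) (by norm_num)
  · left; exact van1 _ 0 (by norm_num)
  · exact absurd rfl hne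

lemma not24 : ¬ SpectralPair 24 A B := by
  intro h
  have h1 := h 18 (by decide) 0 (by decide) (by decide)
  rw [nuhat_A] at h1
  have e1 : (4 * (((18 : ℤ) : ℝ) - ((0 : ℤ) : ℝ)) / ((24 : ℕ) : ℝ)) = ((3 : ℤ) : ℝ) := by norm_num
  have e2 : (16 * (((18 : ℤ) : ℝ) - ((0 : ℤ) : ℝ)) / ((24 : ℕ) : ℝ)) = ((12 : ℤ) : ℝ) := by
    norm_num
  rw [← mul_div_assoc, e1, ← mul_div_assoc, e2, e_int, e_int] at h1
  norm_num at h1

lemma not576 : ¬ SpectralPair (24 ^ 2) A B := by
  intro h
  have h1 := h 3 (by decide) 0 (by decide) (by decide)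
  rw [nuhat_A] at h1
  have n1 := e_nz (4 * ((((3 : ℤ) : ℝ) - ((0 : ℤ) : ℝ)) / ((24 ^ 2 : ℕ) : ℝ)))
    (by norm_num) (by norm_num)
  have n2 := e_nz (16 * ((((3 : ℤ) : ℝ) - ((0 : ℤ) : ℝ)) / ((24 ^ 2 : ℕ) : ℝ)))
    (by norm_num) (by norm_num)
  have := mul_ne_zero n1 n2
  apply this
  have h4 : (1 / 4 : ℂ) ≠ 0 := by norm_num
  exact (mul_eq_zero.mp h1).resolve_left h4

/-- Q1 of the problem has a negative answer: there are `M ≥ 3` and `A, B` contained in
`{0, ..., M - 1}` with `|A| = |B|`, `1 < |A| < M`, such that `(A, B)` is a distributed spectral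
pair but a spectral pair neither in `Z_M` nor in `Z_{M^2}`. -/
theorem result :
    ∃ (M : ℕ) (A B : Finset ℤ), 3 ≤ M ∧
      A ⊆ Finset.Ico (0 : ℤ) (M : ℤ) ∧ B ⊆ Finset.Ico (0 : ℤ) (M : ℤ) ∧
      A.card = B.card ∧ 1 < A.card ∧ A.card < M ∧
      DistributedSpectralPair M A B ∧
      ¬ SpectralPair M A B ∧ ¬ SpectralPair (M ^ 2) A B := by
  refine ⟨24, A, B, by norm_num, by decide, by decide, by decide, by decide, by decide,
    distr, not24, not576⟩

end Pool.Agent.Results.MP_2c87a3_an.MixedPair
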